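import Pool.Agent.N904.AP.Stm

/-!
# Project AP: basic facts about the letters `sg a`, words and discs
-/

set_option autoImplicit false

open Set Filter Topology

namespace Pool.Agent.N904.AP

@[simp] theorem sg_infty (a : ℂ × ℂ) : sg a OnePoint.infty = (a.1 : OnePoint ℂ) := rfl

@[simp] theorem sg_self (a : ℂ × ℂ) : sg a (a.1 : OnePoint ℂ) = OnePoint.infty := by
  unfold sg
  rw [OnePoint.elim_some]
  simp

theorem sg_coe {a : ℂ × ℂ} {z : ℂ} (h : z ≠ a.1) :
    sg a (z : OnePoint ℂ) = ((a.1 - a.2 / (z - a.1) : ℂ) : OnePoint ℂ) := by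
  unfold sg
  rw [OnePoint.elim_some, if_neg h]

/-- letters are involutions -/
theorem sg_sg {a : ℂ × ℂ} (ha : a.2 ≠ 0) (x : OnePoint ℂ) : sg a (sg a x) = x := by
  induction x using OnePoint.rec with
  | infty => rw [sg_infty, sg_self]
  | coe z =>
    by_cases hz : z = a.1
    · rw [hz, sg_self, sg_infty]
    · have h1 : z - a.1 ≠ 0 := sub_ne_zero.2 hz
      have h2 : a.2 / (z - a.1) ≠ 0 := div_ne_zero ha h1
      have h3 : a.1 - a.2 / (z - a.1) ≠ a.1 := by
        intro h
        apply h2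
        linear_combination -h
      rw [sg_coe hz, sg_coe h3]
      congr 1
      have h4 : a.1 - a.2 / (z - a.1) - a.1 = -(a.2 / (z - a.1)) := by ring
      rw [h4, div_neg, div_div_eq_mul_div, mul_div_assoc, mul_comm a.2, div_mul_cancel₀ _ ha]
      ring

theorem sg_injective {a : ℂ × ℂ} (ha : a.2 ≠ 0) : Function.Injective (sg a) :=
  Function.LeftInverse.injective (g := sg a) (sg_sg ha)

theorem sg_image {a : ℂ × ℂ} (ha : a.2 ≠ 0) (S : Set (OnePoint ℂ)) :
    sg a '' S = sg a ⁻¹' S := by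
  ext p
  constructor
  · rintro ⟨q, hq, rfl⟩
    show sg a (sg a q) ∈ S
    rwa [sg_sg ha]
  · intro hp
    exact ⟨sg a p, hp, sg_sg ha p⟩

/-- the matrix of a letter -/
noncomputable def sgM (a : ℂ × ℂ) (ha : a.2 ≠ 0) : GLC :=
  mk2 a.1 (-a.1 ^ 2 - a.2) 1 (-a.1) (by
    have : a.1 * -a.1 - (-a.1 ^ 2 - a.2) * 1 = a.2 := by ring
    rwa [this])

theorem mk2_00 (a b c d : ℂ) (h : a * d - b * c ≠ 0) : (mk2 a b c d h) 0 0 = a := rfl
theorem mk2_01 (a b c d : ℂ) (h : a * d - b * c ≠ 0) : (mk2 a b c d h) 0 1 = b := rfl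
theorem mk2_10 (a b c d : ℂ) (h : a * d - b * c ≠ 0) : (mk2 a b c d h) 1 0 = c := rfl
theorem mk2_11 (a b c d : ℂ) (h : a * d - b * c ≠ 0) : (mk2 a b c d h) 1 1 = d := rfl

theorem mk2_smul_infty (a b c d : ℂ) (h : a * d - b * c ≠ 0) :
    (mk2 a b c d h) • (OnePoint.infty : OnePoint ℂ)
      = if c = 0 then OnePoint.infty else ((a / c : ℂ) : OnePoint ℂ) := by
  rw [OnePoint.smul_infty_eq_ite, mk2_10, mk2_00]

theorem mk2_smul_coe (a b c d : ℂ) (h : a * d - b * c ≠ 0) (z : ℂ) :
    (mk2 a b c d h) • (z : OnePoint ℂ)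
      = if c * z + d = 0 then OnePoint.infty
        else (((a * z + b) / (c * z + d) : ℂ) : OnePoint ℂ) := by
  rw [OnePoint.smul_some_eq_ite, mk2_10, mk2_00, mk2_11, mk2_01]

/-- letters act as elements of `GL₂(ℂ)` -/
theorem sgM_smul (a : ℂ × ℂ) (ha : a.2 ≠ 0) (x : OnePoint ℂ) : sgM a ha • x = sg a x := by
  unfold sgM
  induction x using OnePoint.rec with
  | infty =>
    rw [mk2_smul_infty, sg_infty, if_neg one_ne_zero, div_one]
  | coe z =>
    rw [mk2_smul_coe]
    by_cases hz : z = a.1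
    · rw [hz, sg_self, if_pos (by ring)]
    · have h1 : z - a.1 ≠ 0 := sub_ne_zero.2 hz
      rw [sg_coe hz, if_neg (by rw [one_mul, ← sub_eq_add_neg]; exact h1)]
      congr 1
      rw [one_mul, ← sub_eq_add_neg]
      field_simp
      ring

theorem img_sgM (a : ℂ × ℂ) (ha : a.2 ≠ 0) (S : Set (OnePoint ℂ)) :
    img (sgM a ha) S = sg a '' S := by
  unfold img
  exact image_congr fun x _ => sgM_smul a ha x

theorem img_mul (g h : GLC) (S : Set (OnePoint ℂ)) : img (g * h) S = img g (img h S) := by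
  unfold img
  rw [image_image]
  exact image_congr fun x _ => mul_smul g h x

theorem img_one (S : Set (OnePoint ℂ)) : img 1 S = S := by
  unfold img
  simp

theorem img_inv_img (g : GLC) (S : Set (OnePoint ℂ)) : img g⁻¹ (img g S) = S := by
  rw [← img_mul, inv_mul_cancel, img_one]

theorem img_img_inv (g : GLC) (S : Set (OnePoint ℂ)) : img g (img g⁻¹ S) = S := by
  rw [← img_mul, mul_inv_cancel, img_one]

theorem img_injective (g : GLC) : Function.Injective (img g) :=
  Function.LeftInverse.injective (img_inv_img g)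

theorem isCirc_img (g : GLC) {S : Set (OnePoint ℂ)} (h : IsCirc S) : IsCirc (img g S) := by
  obtain ⟨k, rfl⟩ := h
  exact ⟨g * k, (img_mul g k RR).symm⟩

theorem isCirc_sg {a : ℂ × ℂ} (ha : a.2 ≠ 0) {S : Set (OnePoint ℂ)} (h : IsCirc S) :
    IsCirc (sg a '' S) := by
  rw [← img_sgM a ha]
  exact isCirc_img _ h

/-! ## Continuity of letters (without `StCont`) -/

theorem continuous_sg {a : ℂ × ℂ} (ha : a.2 ≠ 0) : Continuous (sg a) := by
  rw [continuous_iff_continuousAt]
  intro x
  induction x using OnePoint.rec with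
  | infty =>
    rw [ContinuousAt, sg_infty, OnePoint.nhds_infty_eq, Filter.tendsto_sup]
    constructor
    · rw [Filter.tendsto_map'_iff]
      have h1 : Tendsto (fun z : ℂ => a.1 - a.2 / (z - a.1)) (coclosedCompact ℂ) (𝓝 a.1) := by
        have h2 : Tendsto (fun z : ℂ => ‖z - a.1‖) (coclosedCompact ℂ) atTop := by
          rw [coclosedCompact_eq_cocompact]
          have h3 : Tendsto (fun z : ℂ => z - a.1) (cocompact ℂ) (cocompact ℂ) :=
            (Homeomorph.subRight a.1).isClosedEmbedding.tendsto_cocompact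
          exact tendsto_norm_cocompact_atTop.comp h3
        have h4 : Tendsto (fun z : ℂ => a.2 / (z - a.1)) (coclosedCompact ℂ) (𝓝 0) := by
          rw [tendsto_zero_iff_norm_tendsto_zero]
          have h5 : ∀ z : ℂ, ‖a.2 / (z - a.1)‖ = ‖a.2‖ / ‖z - a.1‖ := fun z => norm_div _ _
          simp_rw [h5]
          exact h2.const_div_atTop _
        simpa using tendsto_const_nhds.sub h4
      have h6 : Tendsto (fun z : ℂ => ((a.1 - a.2 / (z - a.1) : ℂ) : OnePoint ℂ))
          (coclosedCompact ℂ) (𝓝 (a.1 : OnePoint ℂ)) :=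
        (OnePoint.continuous_coe.tendsto a.1).comp h1
      refine h6.congr' ?_
      have h7 : ∀ᶠ z : ℂ in coclosedCompact ℂ, z ≠ a.1 := by
        rw [coclosedCompact_eq_cocompact]
        have : ({a.1}ᶜ : Set ℂ) ∈ cocompact ℂ := isCompact_singleton.compl_mem_cocompact
        exact this
      filter_upwards [h7] with z hz
      show _ = sg a (z : OnePoint ℂ)
      rw [sg_coe hz]
    · rw [tendsto_pure_left]
      intro s hs
      rw [sg_infty]
      exact mem_of_mem_nhds hs
  | coe z =>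
    rw [OnePoint.continuousAt_coe]
    by_cases hz : z = a.1
    · have hz' : (sg a ∘ (fun z : ℂ => (z : OnePoint ℂ))) z = OnePoint.infty := by
        rw [hz]; exact sg_self a
      rw [ContinuousAt]
      have e1 : (sg a ∘ (OnePoint.some : ℂ → OnePoint ℂ)) z = OnePoint.infty := hz'
      rw [e1]
      rw [← nhdsNE_sup_pure z, Filter.tendsto_sup]
      constructor
      · have h2 : Tendsto (fun w : ℂ => a.1 - a.2 / (w - a.1)) (𝓝[≠] z) (coclosedCompact ℂ) := by
          rw [coclosedCompact_eq_cocompact, ← Metric.cobounded_eq_cocompact,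
            ← tendsto_norm_atTop_iff_cobounded]
          have h3 : Tendsto (fun w : ℂ => ‖w - a.1‖) (𝓝[≠] z) (𝓝[>] 0) := by
            rw [tendsto_nhdsWithin_iff]
            constructor
            · have : Tendsto (fun w : ℂ => ‖w - a.1‖) (𝓝 z) (𝓝 ‖z - a.1‖) :=
                (by fun_prop : Continuous fun w : ℂ => ‖w - a.1‖).tendsto z
              rw [hz, sub_self, norm_zero] at this
              rw [hz]
              exact this.mono_left nhdsWithin_le_nhds
            · filter_upwards [self_mem_nhdsWithin] with w hw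
              have : w ≠ a.1 := by rw [← hz]; exact hw
              exact norm_pos_iff.2 (sub_ne_zero.2 this)
          have h4 : Tendsto (fun w : ℂ => ‖a.2‖ * ‖w - a.1‖⁻¹ - ‖a.1‖) (𝓝[≠] z) atTop := by
            apply tendsto_atTop_add_const_right
            exact (tendsto_inv_nhdsGT_zero.comp h3).const_mul_atTop (norm_pos_iff.2 ha)
          refine tendsto_atTop_mono (fun w => ?_) h4
          have h5 : ‖a.2 / (w - a.1)‖ = ‖a.2‖ * ‖w - a.1‖⁻¹ := by
            rw [norm_div, div_eq_mul_inv]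
          have h6 := norm_sub_norm_le (a.2 / (w - a.1)) a.1
          rw [← h5]
          calc _ ≤ ‖a.2 / (w - a.1) - a.1‖ := h6
            _ = ‖a.1 - a.2 / (w - a.1)‖ := norm_sub_rev _ _
        have h8 : Tendsto (fun w : ℂ => ((a.1 - a.2 / (w - a.1) : ℂ) : OnePoint ℂ)) (𝓝[≠] z)
            (𝓝 OnePoint.infty) := by
          have h9 : Tendsto (fun w : ℂ => (w : OnePoint ℂ)) (coclosedCompact ℂ)
              (𝓝 OnePoint.infty) := by
            rw [OnePoint.nhds_infty_eq]
            exact tendsto_map.mono_right le_sup_left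
          exact h9.comp h2
        refine h8.congr' ?_
        filter_upwards [self_mem_nhdsWithin] with w hw
        have : w ≠ a.1 := by rw [← hz]; exact hw
        show _ = sg a (w : OnePoint ℂ)
        rw [sg_coe this]
      · rw [tendsto_pure_left]
        intro s hs
        have : (sg a ∘ (OnePoint.some : ℂ → OnePoint ℂ)) z ∈ s := by
          rw [e1]; exact mem_of_mem_nhds hs
        exact this
    · have h1 : ContinuousAt (fun w : ℂ => a.1 - a.2 / (w - a.1)) z := by
        apply ContinuousAt.sub continuousAt_const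
        exact continuousAt_const.div (by fun_prop) (sub_ne_zero.2 hz)
      have h2 : ContinuousAt (fun w : ℂ => ((a.1 - a.2 / (w - a.1) : ℂ) : OnePoint ℂ)) z :=
        (OnePoint.continuous_coe.continuousAt).comp h1
      refine h2.congr ?_
      filter_upwards [isOpen_ne.mem_nhds hz] with w hw
      show _ = sg a (w : OnePoint ℂ)
      rw [sg_coe hw]

/-! ## Words -/

@[simp] theorem wd_nil (z : OnePoint ℂ) : wd [] z = z := rfl

@[simp] theorem wd_cons (a : ℂ × ℂ) (l : List (ℂ × ℂ)) (z : OnePoint ℂ) :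
    wd (a :: l) z = sg a (wd l z) := rfl

theorem wd_append (l m : List (ℂ × ℂ)) (z : OnePoint ℂ) : wd (l ++ m) z = wd l (wd m z) := by
  induction l with
  | nil => rfl
  | cons a l ih => rw [List.cons_append, wd_cons, wd_cons, ih]

theorem wd_reverse_wd {l : List (ℂ × ℂ)} (h : ∀ a ∈ l, a.2 ≠ 0) (z : OnePoint ℂ) :
    wd l.reverse (wd l z) = z := by
  induction l generalizing z with
  | nil => rfl
  | cons a l ih =>
    rw [List.reverse_cons, wd_append, wd_cons, wd_cons, wd_nil, sg_sg (h a (by simp))]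
    exact ih (fun b hb => h b (by simp [hb])) z

theorem wd_wd_reverse {l : List (ℂ × ℂ)} (h : ∀ a ∈ l, a.2 ≠ 0) (z : OnePoint ℂ) :
    wd l (wd l.reverse z) = z := by
  have := wd_reverse_wd (l := l.reverse) (fun a ha => h a (by simpa using ha)) z
  rwa [List.reverse_reverse] at this

theorem wd_injective {l : List (ℂ × ℂ)} (h : ∀ a ∈ l, a.2 ≠ 0) : Function.Injective (wd l) :=
  Function.LeftInverse.injective (wd_reverse_wd h)

theorem continuous_wd {l : List (ℂ × ℂ)} (h : ∀ a ∈ l, a.2 ≠ 0) : Continuous (wd l) := by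
  induction l with
  | nil => exact continuous_id
  | cons a l ih =>
    have : wd (a :: l) = sg a ∘ wd l := rfl
    rw [this]
    exact (continuous_sg (h a (by simp))).comp (ih fun b hb => h b (by simp [hb]))

/-- every word is the action of an element of `GL₂(ℂ)` -/
theorem exists_glc_wd {l : List (ℂ × ℂ)} (h : ∀ a ∈ l, a.2 ≠ 0) :
    ∃ g : GLC, ∀ z : OnePoint ℂ, g • z = wd l z := by
  induction l with
  | nil => exact ⟨1, fun z => one_smul _ z⟩
  | cons a l ih =>
    obtain ⟨g, hg⟩ := ih fun b hb => h b (by simp [hb])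
    refine ⟨sgM a (h a (by simp)) * g, fun z => ?_⟩
    rw [mul_smul, hg, sgM_smul, wd_cons]

theorem InA.cons {𝒜 : Set (ℂ × ℂ)} {a : ℂ × ℂ} {l : List (ℂ × ℂ)} (ha : a ∈ 𝒜) (hl : InA 𝒜 l) :
    InA 𝒜 (a :: l) := by
  intro b hb
  rcases List.mem_cons.1 hb with rfl | hb
  · exact ha
  · exact hl b hb

theorem InA.append {𝒜 : Set (ℂ × ℂ)} {l m : List (ℂ × ℂ)} (hl : InA 𝒜 l) (hm : InA 𝒜 m) :
    InA 𝒜 (l ++ m) := by
  intro b hb
  rcases List.mem_append.1 hb with hb | hb
  · exact hl b hb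
  · exact hm b hb

theorem InA.reverse {𝒜 : Set (ℂ × ℂ)} {l : List (ℂ × ℂ)} (hl : InA 𝒜 l) :
    InA 𝒜 l.reverse := fun b hb => hl b (List.mem_reverse.1 hb)

theorem InA.tail {𝒜 : Set (ℂ × ℂ)} {a : ℂ × ℂ} {l : List (ℂ × ℂ)} (h : InA 𝒜 (a :: l)) :
    InA 𝒜 l := fun b hb => h b (by simp [hb])

theorem InA.head {𝒜 : Set (ℂ × ℂ)} {a : ℂ × ℂ} {l : List (ℂ × ℂ)} (h : InA 𝒜 (a :: l)) :
    a ∈ 𝒜 := h a (by simp)

/-! ## Discs -/

theorem rad_pos {a : ℂ × ℂ} (ha : a.2 ≠ 0) : 0 < rad a := Real.sqrt_pos.2 (norm_pos_iff.2 ha)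

theorem rad_sq (a : ℂ × ℂ) : rad a ^ 2 = ‖a.2‖ := Real.sq_sqrt (norm_nonneg _)

theorem mem_up {A : Set ℂ} {z : ℂ} : (z : OnePoint ℂ) ∈ up A ↔ z ∈ A := by
  unfold up
  constructor
  · rintro ⟨w, hw, h⟩
    have : w = z := OnePoint.coe_injective h
    rwa [← this]
  · intro h
    exact ⟨z, h, rfl⟩

theorem infty_notMem_up {A : Set ℂ} : (OnePoint.infty : OnePoint ℂ) ∉ up A := by
  rintro ⟨w, _, h⟩
  exact OnePoint.coe_ne_infty w h

/-- outside the open disc the letter maps into the closed disc -/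
theorem sg_mem_Dk {a : ℂ × ℂ} (ha : a.2 ≠ 0) {x : OnePoint ℂ}
    (hx : x ∉ up (Metric.ball a.1 (rad a))) : sg a x ∈ up (Dk a) := by
  induction x using OnePoint.rec with
  | infty =>
    rw [sg_infty, mem_up]
    exact Metric.mem_closedBall_self (rad_pos ha).le
  | coe z =>
    rw [mem_up, Metric.mem_ball, not_lt, dist_eq_norm] at hx
    have hr := rad_pos ha
    have hz : z ≠ a.1 := by
      rintro rfl
      rw [sub_self, norm_zero] at hx
      linarith
    rw [sg_coe hz, mem_up]
    unfold Dk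
    rw [Metric.mem_closedBall, dist_eq_norm]
    have h1 : a.1 - a.2 / (z - a.1) - a.1 = -(a.2 / (z - a.1)) := by ring
    rw [h1, norm_neg, norm_div, ← rad_sq a, div_le_iff₀ (by linarith)]
    nlinarith

/-- outside the closed disc the letter maps into the open disc -/
theorem sg_mem_ball {a : ℂ × ℂ} (ha : a.2 ≠ 0) {x : OnePoint ℂ}
    (hx : x ∉ up (Dk a)) : sg a x ∈ up (Metric.ball a.1 (rad a)) := by
  induction x using OnePoint.rec with
  | infty =>
    rw [sg_infty, mem_up]
    exact Metric.mem_ball_self (rad_pos ha)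
  | coe z =>
    unfold Dk at hx
    rw [mem_up, Metric.mem_closedBall, not_le, dist_eq_norm] at hx
    have hr := rad_pos ha
    have hz : z ≠ a.1 := by
      rintro rfl
      rw [sub_self, norm_zero] at hx
      linarith
    rw [sg_coe hz, mem_up]
    rw [Metric.mem_ball, dist_eq_norm]
    have h1 : a.1 - a.2 / (z - a.1) - a.1 = -(a.2 / (z - a.1)) := by ring
    rw [h1, norm_neg, norm_div, ← rad_sq a, div_lt_iff₀ (by linarith)]
    nlinarith

/-- inside the open disc the letter maps outside the closed disc -/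
theorem sg_notMem_Dk {a : ℂ × ℂ} (ha : a.2 ≠ 0) {x : OnePoint ℂ}
    (hx : x ∈ up (Metric.ball a.1 (rad a))) : sg a x ∉ up (Dk a) := by
  intro h
  induction x using OnePoint.rec with
  | infty => exact infty_notMem_up hx
  | coe z =>
    rw [mem_up, Metric.mem_ball, dist_eq_norm] at hx
    have hr := rad_pos ha
    by_cases hz : z = a.1
    · rw [hz, sg_self] at h
      exact infty_notMem_up h
    · rw [sg_coe hz, mem_up] at h
      unfold Dk at h
      rw [Metric.mem_closedBall, dist_eq_norm] at h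
      have h1 : a.1 - a.2 / (z - a.1) - a.1 = -(a.2 / (z - a.1)) := by ring
      have h2 : 0 < ‖z - a.1‖ := norm_pos_iff.2 (sub_ne_zero.2 hz)
      rw [h1, norm_neg, norm_div, ← rad_sq a, div_le_iff₀ h2] at h
      nlinarith

/-- the distance formula -/
theorem norm_sg_sub (a : ℂ × ℂ) {z w : ℂ} (hz : z ≠ a.1) (hw : w ≠ a.1) :
    ‖(a.1 - a.2 / (z - a.1)) - (a.1 - a.2 / (w - a.1))‖
      = rad a ^ 2 * ‖z - w‖ / (‖z - a.1‖ * ‖w - a.1‖) := by
  have h1 : z - a.1 ≠ 0 := sub_ne_zero.2 hz
  have h2 : w - a.1 ≠ 0 := sub_ne_zero.2 hw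
  have h3 : (a.1 - a.2 / (z - a.1)) - (a.1 - a.2 / (w - a.1))
      = a.2 * (z - w) / ((z - a.1) * (w - a.1)) := by
    field_simp
    ring
  rw [h3, norm_div, norm_mul, norm_mul, rad_sq]

end Pool.Agent.N904.AP
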