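import Pool.Agent.N904.AP.Basic

/-!
# Project AP: assembly
-/

set_option autoImplicit false

open Set Filter Topology

namespace Pool.Agent.N904.AP

theorem inG_mul {𝒜 : Set (ℂ × ℂ)} {g h : GLC} (hg : InG 𝒜 g) (hh : InG 𝒜 h) : InG 𝒜 (g * h) := by
  obtain ⟨l, hl, e⟩ := hg
  obtain ⟨m, hm, f⟩ := hh
  refine ⟨l ++ m, hl.append hm, fun z => ?_⟩
  rw [mul_smul, f, e, wd_append]

theorem inG_one {𝒜 : Set (ℂ × ℂ)} : InG 𝒜 1 := ⟨[], fun _ h => by simp at h, fun z => one_smul _ z⟩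

theorem inG_inv {𝒜 : Set (ℂ × ℂ)} (hne : ∀ a ∈ 𝒜, a.2 ≠ 0) {g : GLC} (hg : InG 𝒜 g) :
    InG 𝒜 g⁻¹ := by
  obtain ⟨l, hl, e⟩ := hg
  refine ⟨l.reverse, hl.reverse, fun z => ?_⟩
  rw [inv_smul_eq_iff, e, wd_wd_reverse (fun a ha => hne a (hl a ha))]

/-- the group of the family -/
def grp (𝒜 : Set (ℂ × ℂ)) (hne : ∀ a ∈ 𝒜, a.2 ≠ 0) : Subgroup GLC where
  carrier := {g | InG 𝒜 g}
  mul_mem' := fun hg hh => inG_mul hg hh
  one_mem' := inG_one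
  inv_mem' := fun hg => inG_inv hne hg

theorem mem_grp {𝒜 : Set (ℂ × ℂ)} {hne : ∀ a ∈ 𝒜, a.2 ≠ 0} {g : GLC} :
    g ∈ grp 𝒜 hne ↔ InG 𝒜 g := Iff.rfl

theorem orb_eq {𝒜 : Set (ℂ × ℂ)} (hne : ∀ a ∈ 𝒜, a.2 ≠ 0) (z : OnePoint ℂ) :
    {w : OnePoint ℂ | ∃ g ∈ grp 𝒜 hne, w = g • z} = orb 𝒜 z := by
  ext w
  constructor
  · rintro ⟨g, hg, rfl⟩
    obtain ⟨l, hl, e⟩ := hg
    exact ⟨l, hl, e z⟩
  · rintro ⟨l, hl, rfl⟩
    obtain ⟨g, hg⟩ := exists_glc_wd (fun a ha => hne a (hl a ha))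
    exact ⟨g, ⟨l, hl, hg⟩, (hg z).symm⟩

theorem sym_wd {𝒜 : Set (ℂ × ℂ)} (h : ∀ a ∈ 𝒜, Sym (sg a)) {l : List (ℂ × ℂ)} (hl : InA 𝒜 l) :
    Sym (wd l) := by
  induction l with
  | nil =>
    intro S
    have : wd [] '' S = S := by
      have e : wd [] = id := rfl
      rw [e, image_id]
    rw [this]
  | cons a l ih =>
    intro S
    have e : wd (a :: l) '' S = sg a '' (wd l '' S) := by
      rw [image_image]
      rfl
    rw [e, ← h a hl.head]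
    exact ih hl.tail S

theorem sym_image_sUnion {Φ : OnePoint ℂ → OnePoint ℂ} (h : Sym Φ) :
    ∀ x ∈ ⋃₀ PP, Φ x ∈ ⋃₀ PP := by
  rintro x ⟨T, hT, hx⟩
  exact ⟨Φ '' T, (h T).1 hT, mem_image_of_mem Φ hx⟩

theorem sym_LL {Φ : OnePoint ℂ → OnePoint ℂ} (h : Sym Φ) (hc : Continuous Φ) :
    ∀ x ∈ LL, Φ x ∈ LL := by
  have h1 : LL ⊆ Φ ⁻¹' LL :=
    closure_minimal (fun y hy => subset_closure (sym_image_sUnion h y hy))
      (isClosed_closure.preimage hc)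
  exact fun x hx => h1 hx

theorem Cc_mem_PP : Cc 0 ∈ PP := fun _ hF => hF.1

theorem infty_mem_LL (hB : StBase) : (OnePoint.infty : OnePoint ℂ) ∈ LL := by
  apply subset_closure
  refine ⟨Cc 0, Cc_mem_PP, ?_⟩
  rw [hB.1]
  exact mem_insert _ _

theorem main_of (hB : StBase) (hAdm : StAdm) (hMax : StMax) (hDense : StDense)
    (hSub : StSub) (hSup : StSup) (hNC : StNotClosed) (hND : StNotDense) (hSep : StSep) :
    ¬ (∀ (P : Set (Set (OnePoint ℂ))),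
  (∃ C₁ C₂ C₃ C₄ : Set (OnePoint ℂ),
    (∃ g : Matrix.GeneralLinearGroup (Fin 2) ℂ, C₁ = (fun w : OnePoint ℂ => g • w) '' (insert (OnePoint.infty : OnePoint ℂ) (Set.range (fun x : ℝ => OnePoint.some (x : ℂ))))) ∧
    (∃ g : Matrix.GeneralLinearGroup (Fin 2) ℂ, C₂ = (fun w : OnePoint ℂ => g • w) '' (insert (OnePoint.infty : OnePoint ℂ) (Set.range (fun x : ℝ => OnePoint.some (x : ℂ))))) ∧
    (∃ g : Matrix.GeneralLinearGroup (Fin 2) ℂ, C₃ = (fun w : OnePoint ℂ => g • w) '' (insert (OnePoint.infty : OnePoint ℂ) (Set.range (fun x : ℝ => OnePoint.some (x : ℂ))))) ∧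
    (∃ g : Matrix.GeneralLinearGroup (Fin 2) ℂ, C₄ = (fun w : OnePoint ℂ => g • w) '' (insert (OnePoint.infty : OnePoint ℂ) (Set.range (fun x : ℝ => OnePoint.some (x : ℂ))))) ∧
    (∃! p, p ∈ C₁ ∩ C₂) ∧ (∃! p, p ∈ C₁ ∩ C₃) ∧ (∃! p, p ∈ C₁ ∩ C₄) ∧
    (∃! p, p ∈ C₂ ∩ C₃) ∧ (∃! p, p ∈ C₂ ∩ C₄) ∧ (∃! p, p ∈ C₃ ∩ C₄) ∧
    C₁ ∩ C₂ ∩ C₃ = ∅ ∧ C₁ ∩ C₂ ∩ C₄ = ∅ ∧ C₁ ∩ C₃ ∩ C₄ = ∅ ∧ C₂ ∩ C₃ ∩ C₄ = ∅ ∧
    P = ⋂₀ {F : Set (Set (OnePoint ℂ)) | C₁ ∈ F ∧ C₂ ∈ F ∧ C₃ ∈ F ∧ C₄ ∈ F ∧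
      ∀ S ∈ F, ∀ T ∈ F, ∀ U ∈ F, ∀ V : Set (OnePoint ℂ),
        (∃ g : Matrix.GeneralLinearGroup (Fin 2) ℂ, V = (fun w : OnePoint ℂ => g • w) '' (insert (OnePoint.infty : OnePoint ℂ) (Set.range (fun x : ℝ => OnePoint.some (x : ℂ))))) →
        (∃! p, p ∈ S ∩ T) → (∃! p, p ∈ T ∩ U) → (∃! p, p ∈ S ∩ U) → S ∩ T ∩ U = ∅ →
        (∃! p, p ∈ V ∩ S) → (∃! p, p ∈ V ∩ T) → (∃! p, p ∈ V ∩ U) → V ∈ F}) →
  ∀ Γ : Subgroup (Matrix.GeneralLinearGroup (Fin 2) ℂ),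
  (∀ g ∈ Γ, ∀ S : Set (OnePoint ℂ), S ∈ P ↔ (fun w : OnePoint ℂ => g • w) '' S ∈ P) →
  (∀ z : OnePoint ℂ, derivedSet {w : OnePoint ℂ | ∃ g ∈ Γ, w = g • z} = closure (⋃₀ P)) →
  ∀ C : Set (OnePoint ℂ),
  (∃ g : Matrix.GeneralLinearGroup (Fin 2) ℂ,
    C = (fun w : OnePoint ℂ => g • w) '' (insert (OnePoint.infty : OnePoint ℂ) (Set.range (fun x : ℝ => OnePoint.some (x : ℂ)))) ∧
    ((fun w : OnePoint ℂ => g • w) '' (OnePoint.some '' {z : ℂ | 0 < z.im}) ∩ closure (⋃₀ P)).Nonempty ∧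
    ((fun w : OnePoint ℂ => g • w) '' (OnePoint.some '' {z : ℂ | z.im < 0}) ∩ closure (⋃₀ P)).Nonempty) →
  (IsClosed {h : Matrix.GeneralLinearGroup (Fin 2) ℂ | ∃ γ ∈ Γ,
      (fun w : OnePoint ℂ => h • w) '' (insert (OnePoint.infty : OnePoint ℂ) (Set.range (fun x : ℝ => OnePoint.some (x : ℂ)))) = (fun w : OnePoint ℂ => γ • w) '' C} ∨
   ∀ h : Matrix.GeneralLinearGroup (Fin 2) ℂ,
     ((fun w : OnePoint ℂ => h • w) '' (insert (OnePoint.infty : OnePoint ℂ) (Set.range (fun x : ℝ => OnePoint.some (x : ℂ)))) ∩ closure (⋃₀ P)).Nonempty →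
     h ∈ closure {h' : Matrix.GeneralLinearGroup (Fin 2) ℂ | ∃ γ ∈ Γ,
       (fun w : OnePoint ℂ => h' • w) '' (insert (OnePoint.infty : OnePoint ℂ) (Set.range (fun x : ℝ => OnePoint.some (x : ℂ)))) = (fun w : OnePoint ℂ => γ • w) '' C})) := by
  intro H
  obtain ⟨𝒜, hF, hm⟩ := hMax
  have hA : Adm 𝒜 := hAdm 𝒜 hF
  have hsym : ∀ a ∈ 𝒜, Sym (sg a) := fun a ha => (hF.2.2.2.2.1 a ha).2.2.2.1
  have hΛ : ∀ z : OnePoint ℂ, derivedSet (orb 𝒜 z) = LL := by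
    intro z
    apply Subset.antisymm
    · exact hSub 𝒜 hA LL isClosed_closure (infty_mem_LL hB)
        (fun a ha => sym_LL (hsym a ha) (continuous_sg (hA.ne a ha))) z
    · refine (hDense 𝒜 hF hm).trans (hSup 𝒜 hA ?_ z)
      refine ⟨g1, hF.1, g2, hF.2.1, g3, hF.2.2.1, g4, hF.2.2.2.1, ?_⟩
      have e12 : g1 ≠ g2 := by
        intro h
        have := congrArg Prod.fst h
        simp only [g1, g2] at this
        norm_num [Complex.ext_iff] at this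
      have e13 : g1 ≠ g3 := by
        intro h
        have := congrArg Prod.fst h
        simp only [g1, g3] at this
        norm_num [Complex.ext_iff] at this
      have e14 : g1 ≠ g4 := by
        intro h
        have := congrArg Prod.fst h
        simp only [g1, g4] at this
        norm_num [Complex.ext_iff] at this
      have e23 : g2 ≠ g3 := by
        intro h
        have := congrArg Prod.fst h
        simp only [g2, g3] at this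
        norm_num [Complex.ext_iff] at this
      have e24 : g2 ≠ g4 := by
        intro h
        have := congrArg Prod.fst h
        simp only [g2, g4] at this
        norm_num [Complex.ext_iff] at this
      have e34 : g3 ≠ g4 := by
        intro h
        have := congrArg Prod.fst h
        simp only [g3, g4] at this
        norm_num [Complex.ext_iff] at this
      simp [e12, e13, e14, e23, e24, e34]
  obtain ⟨hB0, hB1, hB2, hB3⟩ := hB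
  have hcase := H PP ⟨Cc 0, Cc 1, Cc 2, Cc 3, hB1 0, hB1 1, hB1 2, hB1 3,
    hB2 0 1 (by decide), hB2 0 2 (by decide), hB2 0 3 (by decide), hB2 1 2 (by decide),
    hB2 1 3 (by decide), hB2 2 3 (by decide),
    hB3 0 1 2 (by decide) (by decide) (by decide), hB3 0 1 3 (by decide) (by decide) (by decide),
    hB3 0 2 3 (by decide) (by decide) (by decide), hB3 1 2 3 (by decide) (by decide) (by decide),
    rfl⟩ (grp 𝒜 hA.ne) ?_ ?_ (Ct (1 / 2)) ⟨hh (1 / 2), hSep.1, hSep.2.1, hSep.2.2⟩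
  · rcases hcase with h1 | h2
    · exact hNC 𝒜 hF h1
    · obtain ⟨h, hh1, hh2⟩ := hND 𝒜 hF
      exact hh2 (h2 h hh1)
  · rintro g ⟨l, hl, e⟩ S
    have h1 : (fun w : OnePoint ℂ => g • w) '' S = wd l '' S := image_congr fun x _ => e x
    rw [h1]
    exact sym_wd hsym hl S
  · intro z
    rw [orb_eq hA.ne z]
    exact hΛ z

end Pool.Agent.N904.AP
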