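import Mathlib

/-!
# Project AP (MP_cc6c48_an, frozen statement S06166): vocabulary and statements

The strip packing `R`, `R + i`, `|z - i/2| = 1/2`, `|z - 1 - i/2| = 1/2`, a group generated by
half turns with disjoint isometric discs whose limit set is the whole packing, and a circle through
one fixed point of a hyperbolic element.
-/

set_option autoImplicit false

open Set Filter Topology

namespace Pool.Agent.N904.AP

/-! ## Circles on the sphere -/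

abbrev GLC := Matrix.GeneralLinearGroup (Fin 2) ℂ

abbrev Sph := OnePoint ℂ

/-- the extended real line (literally the set of the frozen statement) -/
def RR : Set (OnePoint ℂ) :=
  insert (OnePoint.infty : OnePoint ℂ) (Set.range (fun x : ℝ => OnePoint.some (x : ℂ)))

def img (g : GLC) (S : Set (OnePoint ℂ)) : Set (OnePoint ℂ) := (fun w : OnePoint ℂ => g • w) '' S

def IsCirc (S : Set (OnePoint ℂ)) : Prop := ∃ g : GLC, S = img g RR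

def Tan (S T : Set (OnePoint ℂ)) : Prop := ∃! p, p ∈ S ∩ T

/-- complex conjugation on the sphere -/
noncomputable def cj : OnePoint ℂ → OnePoint ℂ := OnePoint.map (starRingEnd ℂ)

/-- a finite set of `ℂ` inside the sphere -/
def up (A : Set ℂ) : Set (OnePoint ℂ) := (fun z : ℂ => (z : OnePoint ℂ)) '' A

/-! ## Circles from vectors -/

section Vec

variable {K : Type*} [CommRing K]

def bas (k : Fin 4) : Fin 4 → K := Pi.single k 1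

/-- the reflection `R_i` -/
def rf (i : Fin 4) (x : Fin 4 → K) : Fin 4 → K := fun j => if j = i then - x i else x j + 2 * x i

def tt (j : Fin 4) (x : Fin 4 → K) : K := (∑ i, x i) - 2 * x j

def BB (x y : Fin 4 → K) : K := 2 * ∑ i, x i * y i - (∑ i, x i) * (∑ i, y i)

def QQ (x : Fin 4 → K) : K := BB x x

end Vec

def toR (x : Fin 4 → ℤ) : Fin 4 → ℝ := fun i => (x i : ℝ)

/-- the equation of the circle of the vector `x` -/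
def eqn (x : Fin 4 → ℝ) (z : ℂ) : ℝ :=
  (x 2 + x 3) * (z.re ^ 2 + z.im ^ 2) - 2 * x 3 * z.re - (x 1 + x 2 + x 3 - x 0) * z.im
    + (x 1 + x 3)

/-- the circle of the vector `x` -/
def circ (x : Fin 4 → ℝ) : Set (OnePoint ℂ) :=
  {p | (p = OnePoint.infty ∧ x 2 + x 3 = 0) ∨ ∃ z : ℂ, p = (z : OnePoint ℂ) ∧ eqn x z = 0}

/-- the four base circles `R`, `R + i`, `|z - i/2| = 1/2`, `|z - 1 - i/2| = 1/2` -/
def Cc (k : Fin 4) : Set (OnePoint ℂ) := circ (bas k)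

/-- the integer vectors of the packing -/
inductive Good : (Fin 4 → ℤ) → Prop
  | base (k : Fin 4) : Good (bas k)
  | up (i : Fin 4) (x : Fin 4 → ℤ) : Good x → 0 < x i → Good (rf i x)

/-! ## The packing -/

def OpClosed (F : Set (Set (OnePoint ℂ))) : Prop :=
  ∀ S ∈ F, ∀ T ∈ F, ∀ U ∈ F, ∀ V : Set (OnePoint ℂ), IsCirc V →
    Tan S T → Tan T U → Tan S U → S ∩ T ∩ U = ∅ → Tan V S → Tan V T → Tan V U → V ∈ F

def PP : Set (Set (OnePoint ℂ)) :=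
  ⋂₀ {F | Cc 0 ∈ F ∧ Cc 1 ∈ F ∧ Cc 2 ∈ F ∧ Cc 3 ∈ F ∧ OpClosed F}

def LL : Set (OnePoint ℂ) := closure (⋃₀ PP)

/-- `Φ` preserves the packing -/
def Sym (Φ : OnePoint ℂ → OnePoint ℂ) : Prop := ∀ S : Set (OnePoint ℂ), S ∈ PP ↔ Φ '' S ∈ PP

/-! ### Stage A: structure of the packing -/

/-- explicit elements of `GL₂(ℂ)` -/
noncomputable def mk2 (a b c d : ℂ) (h : a * d - b * c ≠ 0) : GLC :=
  Matrix.GeneralLinearGroup.mkOfDetNeZero !![a, b; c, d] (by rwa [Matrix.det_fin_two_of])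

/-- A1: `z ↦ -conj z`, `conj z + i`, `1 / conj z`, `1 - conj z` act on the circles `circ x`. -/
def StEquiv : Prop :=
  (∀ x, img (mk2 (-1) 0 0 1 (by norm_num)) (cj '' circ x) = circ (rf 3 x)) ∧
  (∀ x, img (mk2 1 Complex.I 0 1 (by norm_num)) (cj '' circ x) = circ (x ∘ Equiv.swap 0 1)) ∧
  (∀ x, img (mk2 0 1 1 0 (by norm_num)) (cj '' circ x) = circ (x ∘ Equiv.swap 1 2)) ∧
  (∀ x, img (mk2 (-1) 1 0 1 (by norm_num)) (cj '' circ x) = circ (x ∘ Equiv.swap 2 3))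

/-- A2: every circle is the circle of a unit vector. -/
def StForm : Prop := Cc 0 = RR ∧ ∀ S, IsCirc S → ∃ x : Fin 4 → ℝ, QQ x = 1 ∧ S = circ x

/-- A3: intersections with the extended real line. -/
def StTan : Prop :=
  ∀ x : Fin 4 → ℝ, QQ x = 1 →
    (Tan (circ x) (Cc 0) → tt 0 x ^ 2 = 1) ∧ (1 < tt 0 x ^ 2 → circ x ∩ Cc 0 = ∅)

/-- A4: combinatorics of the integer vectors. -/
def StGood : Prop :=
  (∀ x, Good x → QQ x = 1) ∧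
  (∀ x i, Good x → Good (rf i x)) ∧
  (∀ x (π : Equiv.Perm (Fin 4)), Good x → Good (x ∘ π)) ∧
  (∀ x, Good x → ∀ j, x = bas j ∨ 1 ≤ tt j x) ∧
  (∀ x, Good x → 0 ≤ x 2 + x 3) ∧
  (∀ x y, Good x → Good y → x ≠ y → BB x y ≤ -1) ∧
  (∀ p : (Fin 4 → ℤ) → (Fin 4 → ℤ) → (Fin 4 → ℤ) → Prop,
    (∀ i x y z, p (rf i x) (rf i y) (rf i z) → p x y z) →
    (∀ (π : Equiv.Perm (Fin 4)) x y z, p (x ∘ π) (y ∘ π) (z ∘ π) → p x y z) →
    p (bas 0) (bas 1) (bas 2) →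
    ∀ x y z, Good x → Good y → Good z → BB x y = -1 → BB y z = -1 → BB x z = -1 → p x y z)

/-- A5: the facts about the base circles. -/
def StBase : Prop :=
  Cc 0 = RR ∧ (∀ k, IsCirc (Cc k)) ∧ (∀ j k, j ≠ k → Tan (Cc j) (Cc k)) ∧
  (∀ i j k : Fin 4, i ≠ j → j ≠ k → i ≠ k → Cc i ∩ Cc j ∩ Cc k = ∅)

/-- A6: the packing is the set of circles of good vectors. -/
def StPP : Prop := PP = {S | ∃ x, Good x ∧ S = circ (toR x)}

/-- A7: consequences. -/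
def StPack : Prop :=
  (∀ z : ℂ, z.im < 0 → (z : OnePoint ℂ) ∉ LL) ∧
  (∀ T ∈ PP, ∃ g : GLC, T = img g RR ∧ Sym (fun z => g • z)) ∧
  (∀ A : Matrix.SpecialLinearGroup (Fin 2) ℤ,
    Sym (fun z => ((A.map (Int.castRingHom ℂ) : Matrix.SpecialLinearGroup (Fin 2) ℂ) : GLC) • z))

/-! ### Generalities on circles -/

/-- B1: two different circles have only finitely many common points. -/
def StInter : Prop := ∀ S T, IsCirc S → IsCirc T → S ≠ T → (S ∩ T).Finite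

/-- B2: circles are perfect and uncountable near each point. -/
def StPerf : Prop := ∀ T, IsCirc T → ∀ B : Set (OnePoint ℂ), B.Countable → T ⊆ closure (T \ B)

/-- B3: `GL₂(ℂ)` acts by homeomorphisms. -/
def StCont : Prop := ∀ g : GLC, Continuous (fun z : OnePoint ℂ => g • z)

/-! ## Letters and words -/

/-- the involution `z ↦ m - e / (z - m)` of the letter `(m, e)` -/
noncomputable def sg (a : ℂ × ℂ) (x : OnePoint ℂ) : OnePoint ℂ :=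
  x.elim (a.1 : OnePoint ℂ)
    (fun z => open Classical in
      if z = a.1 then OnePoint.infty else ((a.1 - a.2 / (z - a.1) : ℂ) : OnePoint ℂ))

/-- the radius of the isometric circle -/
noncomputable def rad (a : ℂ × ℂ) : ℝ := Real.sqrt ‖a.2‖

/-- the isometric disc -/
noncomputable def Dk (a : ℂ × ℂ) : Set ℂ := Metric.closedBall a.1 (rad a)

/-- the word `l` as a map of the sphere (the head acts last) -/
noncomputable def wd (l : List (ℂ × ℂ)) (z : OnePoint ℂ) : OnePoint ℂ := l.foldr sg z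

/-- the letters of `l` belong to `𝒜` -/
def InA (𝒜 : Set (ℂ × ℂ)) (l : List (ℂ × ℂ)) : Prop := ∀ a ∈ l, a ∈ 𝒜

/-- no two neighbours are equal -/
def Red (l : List (ℂ × ℂ)) : Prop := l.IsChain (· ≠ ·)

structure Adm (𝒜 : Set (ℂ × ℂ)) : Prop where
  ne : ∀ a ∈ 𝒜, a.2 ≠ 0
  disj : 𝒜.PairwiseDisjoint Dk
  fin : ∀ ε > 0, {a ∈ 𝒜 | ε ≤ rad a}.Finite

/-- the orbit of a point -/
def orb (𝒜 : Set (ℂ × ℂ)) (z : OnePoint ℂ) : Set (OnePoint ℂ) := {w | ∃ l, InA 𝒜 l ∧ w = wd l z}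

/-- nested discs: `nest (l ++ [a]) = wd l '' Dk a` -/
noncomputable def nest : List (ℂ × ℂ) → Set (OnePoint ℂ)
  | [] => Set.univ
  | [a] => up (Dk a)
  | a :: b :: l => sg a '' nest (b :: l)

/-- finite part of a subset of the sphere -/
def low (S : Set (OnePoint ℂ)) : Set ℂ := {z | (z : OnePoint ℂ) ∈ S}

/-! ### Stage C: ping-pong -/

/-- C1: contraction. -/
def StContr : Prop := ∀ 𝒜, Adm 𝒜 →
  (∀ l, InA 𝒜 l → Red l → ∀ a t, l = a :: t → nest l ⊆ up (Dk a)) ∧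
  (∀ l, InA 𝒜 l → Red l → ∀ x : OnePoint ℂ, l ≠ [] →
    (∀ a ∈ 𝒜, x ∉ up (Metric.ball a.1 (rad a))) → wd l x ∈ nest l) ∧
  (∀ ε > 0, {l | InA 𝒜 l ∧ Red l ∧ l ≠ [] ∧ ε ≤ Metric.diam (low (nest l))}.Finite)

/-- C2: reduction of words. -/
def StRed : Prop := ∀ 𝒜, Adm 𝒜 → ∀ l, InA 𝒜 l → ∃ l', InA 𝒜 l' ∧ Red l' ∧ ∀ z, wd l z = wd l' z

/-- C3: infinite itineraries. If no point of the orbit of `y` is outside the open discs, then `y` is in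
nested discs of every length. -/
def StItin : Prop := ∀ 𝒜, Adm 𝒜 → ∀ y : OnePoint ℂ,
  (∀ l, InA 𝒜 l → ∃ a ∈ 𝒜, wd l y ∈ up (Metric.ball a.1 (rad a))) →
  ∀ n : ℕ, ∃ l, InA 𝒜 l ∧ Red l ∧ l.length = n + 1 ∧ y ∈ nest l

/-- C4: orbits accumulate only on `Λ`. -/
def StSub : Prop := ∀ 𝒜, Adm 𝒜 → ∀ Λ : Set (OnePoint ℂ), IsClosed Λ → OnePoint.infty ∈ Λ →
  (∀ a ∈ 𝒜, ∀ z ∈ Λ, sg a z ∈ Λ) → ∀ z, derivedSet (orb 𝒜 z) ⊆ Λ

/-- the points seen by the maximality argument -/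
def NiceA (𝒜 : Set (ℂ × ℂ)) : Set (OnePoint ℂ) :=
  {y | ∀ l, InA 𝒜 l → wd l y ≠ OnePoint.infty ∧ (∀ a ∈ 𝒜, wd l y ∉ up (Metric.sphere a.1 (rad a))) ∧
    wd l y ∈ closure (up (⋃ a ∈ 𝒜, Dk a))}

/-- C5: nice points are accumulation points of all orbits. -/
def StSup : Prop := ∀ 𝒜, Adm 𝒜 →
  (∃ a₁ ∈ 𝒜, ∃ a₂ ∈ 𝒜, ∃ a₃ ∈ 𝒜, ∃ a₄ ∈ 𝒜, [a₁, a₂, a₃, a₄].Nodup) →
  ∀ z, closure (NiceA 𝒜) ⊆ derivedSet (orb 𝒜 z)

/-! ### Stage B: small letters near each point of the packing -/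

def StExist : Prop := ∀ T ∈ PP, ∀ u : ℂ, (u : OnePoint ℂ) ∈ T → ∀ δ > (0 : ℝ),
  ∃ a : ℂ × ℂ, a.2 ≠ 0 ∧ ‖a.1 - u‖ < δ ∧ rad a < δ ∧ Sym (sg a) ∧
    ∃ q : ℂ, ‖q - a.1‖ = rad a ∧ (q : OnePoint ℂ) ∉ LL

/-! ### Stage D: the special circles -/

noncomputable def s5 : ℝ := Real.sqrt 5

noncomputable def lam : ℝ := 9 + 4 * Real.sqrt 5

noncomputable def g1 : ℂ × ℂ := (-2, 1)

noncomputable def g2 : ℂ × ℂ := (2, 1)

noncomputable def g3 : ℂ × ℂ := (10, 1)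

noncomputable def g4 : ℂ × ℂ := (20, 1)

/-- the circle `Re ζ = t`, `ζ = (z - √5) / (z + √5)` -/
def Ct (t : ℝ) : Set (OnePoint ℂ) :=
  {p | (p = OnePoint.infty ∧ t = 1) ∨
    ∃ z : ℂ, p = (z : OnePoint ℂ) ∧ ‖z‖ ^ 2 - 5 = t * ‖z + (s5 : ℂ)‖ ^ 2}

/-- the circle `Re (1 / ζ) = - t`, `t > 0` -/
def Cu (t : ℝ) : Set (OnePoint ℂ) :=
  {p | ∃ z : ℂ, p = (z : OnePoint ℂ) ∧ 5 - ‖z‖ ^ 2 = t * ‖z - (s5 : ℂ)‖ ^ 2}

noncomputable def hh (t : ℝ) : GLC :=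
  mk2 (s5 * Complex.I) (s5 * t + s5) (-Complex.I) (1 - t) (by
    have h : (s5 : ℂ) ≠ 0 := by
      unfold s5
      exact_mod_cast (Real.sqrt_pos.2 (by norm_num : (0 : ℝ) < 5)).ne'
    have h2 : (s5 : ℂ) * Complex.I * (1 - t) - (s5 * t + s5) * (-Complex.I)
        = 2 * (s5 * Complex.I) := by ring
    rw [h2]
    exact mul_ne_zero two_ne_zero (mul_ne_zero h Complex.I_ne_zero))

def KK : Set (OnePoint ℂ) := Ct 0 ∪ ⋃ n : ℤ, (Ct (lam ^ n / 2) ∪ Cu (lam ^ n / 2))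

/-- D1: parametrisation. -/
def StPar : Prop := (∀ t, Ct t = img (hh t) RR) ∧ Continuous hh ∧ (∀ t > 0, IsCirc (Cu t)) ∧
  (∀ t ≥ 0, ∃ z : ℂ, z.im < 0 ∧ (z : OnePoint ℂ) ∈ Ct t) ∧
  (∀ t > 0, ∃ z : ℂ, z.im < 0 ∧ (z : OnePoint ℂ) ∈ Cu t)

/-- D2: the two special half turns permute the special circles. -/
def StMove : Prop :=
  (∀ t ≥ 0, sg g1 '' Ct t = (if t = 0 then Ct 0 else Cu (t / lam)) ∧
    sg g2 '' Ct t = (if t = 0 then Ct 0 else Cu (t * lam))) ∧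
  (∀ t > 0, sg g1 '' Cu t = Ct (t * lam) ∧ sg g2 '' Cu t = Ct (t / lam))

/-- D3: `KK` is closed and bounded. -/
def StKK : Prop := IsClosed KK ∧ ∀ z ∈ KK, ∃ w : ℂ, z = (w : OnePoint ℂ) ∧ ‖w‖ ≤ 7

/-! ### Stage E: the maximal family -/

def LetterOk (a : ℂ × ℂ) : Prop :=
  a.2 ≠ 0 ∧ rad a ≤ 1 ∧ rad a * (1 + ‖a.1‖) ≤ 100 ∧ Sym (sg a) ∧
    ∃ q : ℂ, ‖q - a.1‖ = rad a ∧ (q : OnePoint ℂ) ∉ LL

def Fam (𝒜 : Set (ℂ × ℂ)) : Prop :=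
  g1 ∈ 𝒜 ∧ g2 ∈ 𝒜 ∧ g3 ∈ 𝒜 ∧ g4 ∈ 𝒜 ∧ (∀ a ∈ 𝒜, LetterOk a) ∧ 𝒜.PairwiseDisjoint Dk ∧
    ∀ a ∈ 𝒜, a = g1 ∨ a = g2 ∨ Disjoint (up (Dk a)) KK

/-- E1: admissibility. -/
def StAdm : Prop := ∀ 𝒜, Fam 𝒜 → Adm 𝒜

/-- E2: the starting family. -/
def StStart : Prop := Fam {g1, g2, g3, g4}

/-- E3: a maximal family. -/
def StMax : Prop := ∃ 𝒜, Fam 𝒜 ∧
  ∀ T ∈ PP, ∀ u : ℂ, (u : OnePoint ℂ) ∈ T → (u : OnePoint ℂ) ∉ KK →
    (u : OnePoint ℂ) ∈ closure (up (⋃ a ∈ 𝒜, Dk a))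

/-- E4: nice points are dense in `LL`. -/
def StDense : Prop := ∀ 𝒜, Fam 𝒜 →
  (∀ T ∈ PP, ∀ u : ℂ, (u : OnePoint ℂ) ∈ T → (u : OnePoint ℂ) ∉ KK →
    (u : OnePoint ℂ) ∈ closure (up (⋃ a ∈ 𝒜, Dk a))) → LL ⊆ closure (NiceA 𝒜)

/-! ### Stage F: the orbit of the circle `Ct (1/2)` -/

/-- the group of all elements of `GL₂(ℂ)` which act as words in `𝒜` -/
def InG (𝒜 : Set (ℂ × ℂ)) (g : GLC) : Prop := ∃ l, InA 𝒜 l ∧ ∀ z : OnePoint ℂ, g • z = wd l z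

/-- F1: dichotomy. -/
def StDich : Prop := ∀ 𝒜, Fam 𝒜 → ∀ l, InA 𝒜 l → Red l →
  (∀ a ∈ l, a = g1 ∨ a = g2) ∨ ∃ a ∈ 𝒜, wd l '' Ct (1 / 2) ⊆ up (Dk a)

/-- F2: the orbit is not closed. -/
def StNotClosed : Prop := ∀ 𝒜, Fam 𝒜 →
  ¬ IsClosed {h : GLC | ∃ γ, InG 𝒜 γ ∧ img h RR = img γ (Ct (1 / 2))}

/-- F3: the orbit is not dense. -/
def StNotDense : Prop := ∀ 𝒜, Fam 𝒜 →
  ∃ h : GLC, (img h RR ∩ LL).Nonempty ∧
    h ∉ closure {h' : GLC | ∃ γ, InG 𝒜 γ ∧ img h' RR = img γ (Ct (1 / 2))}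

/-- F4: `Ct (1/2)` separates `LL`. -/
def StSep : Prop := Ct (1 / 2) = img (hh (1 / 2)) RR ∧
  (img (hh (1 / 2)) (OnePoint.some '' {z : ℂ | 0 < z.im}) ∩ LL).Nonempty ∧
  (img (hh (1 / 2)) (OnePoint.some '' {z : ℂ | z.im < 0}) ∩ LL).Nonempty

end Pool.Agent.N904.AP
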